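import Mathlib
import Pool.Agent.H.MP_34b196_pr.C

namespace Pool.Agent.Results.MP_f48e0c_pr.FiniteFix

open MeasureTheory Pool.Agent.H.MP_34b196_pr

theorem result {X : Type} [Countable X] [MeasurableSpace (X →₀ ℕ)] [DiscreteMeasurableSpace (X →₀ ℕ)]
    (μ : X → Measure (X →₀ ℕ)) [∀ x, IsProbabilityMeasure (μ x)] (h : (Fix μ).Finite) :
    Fix μ = Ext μ :=
  B.fix_eq_ext h

end Pool.Agent.Results.MP_f48e0c_pr.FiniteFix
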